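import Pool.Agent.H547_r.Trace

/-!
# Orders of poles
-/

set_option autoImplicit false

namespace Pool.Agent.H547_r

open Finset Filter Topology Pool.Agent.H916T Pool.Agent.H547_q

/-- the logarithm of the zeta function -/
noncomputable def lz (f : ℕ → ℂ) (T : ℝ) : ℝ := ∑' n : ℕ, (f n).re * T ^ (n + 1) / (n + 1)

lemma tendsto_log_atTop :
    Tendsto (fun T : ℝ => Real.log (1 / (1 - T))) (𝓝[<] 1) atTop := by
  refine Real.tendsto_log_atTop.comp ?_
  have h1 : Tendsto (fun T : ℝ => 1 - T) (𝓝[<] 1) (𝓝[>] 0) := by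
    refine tendsto_nhdsWithin_iff.mpr ⟨?_, ?_⟩
    · have h2 : Tendsto (fun T : ℝ => 1 - T) (𝓝 1) (𝓝 (1 - 1)) :=
        (continuous_const.sub continuous_id).tendsto 1
      rw [sub_self] at h2
      exact h2.mono_left nhdsWithin_le_nhds
    · filter_upwards [self_mem_nhdsWithin] with T hT
      exact Set.mem_Ioi.mpr (sub_pos.mpr (Set.mem_Iio.mp hT))
  have h3 := tendsto_inv_nhdsGT_zero.comp h1
  simpa [one_div, Function.comp_def] using h3

lemma log_pos_of {T : ℝ} (h1 : 0 < T) (h2 : T < 1) : 0 < Real.log (1 / (1 - T)) := by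
  apply Real.log_pos
  rw [lt_div_iff₀ (by linarith)]
  linarith

lemma pole_log {f : ℕ → ℂ} {n : ℤ} (h : HasPole (fun T => Real.exp (lz f T)) n) :
    Tendsto (fun T => lz f T / Real.log (1 / (1 - T))) (𝓝[<] 1) (𝓝 n) := by
  obtain ⟨c, hc, h⟩ := h
  have hI : ∀ᶠ T : ℝ in 𝓝[<] 1, 0 < T ∧ T < 1 := Ioo_mem_nhdsLT (by norm_num)
  have h1 : Tendsto (fun T : ℝ => Real.log ((1 - T) ^ n * Real.exp (lz f T))) (𝓝[<] 1)
      (𝓝 (Real.log c)) := h.log hc
  have h2 : Tendsto (fun T : ℝ => Real.log ((1 - T) ^ n * Real.exp (lz f T)) /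
      Real.log (1 / (1 - T))) (𝓝[<] 1) (𝓝 0) := h1.div_atTop tendsto_log_atTop
  have h3 := h2.add (tendsto_const_nhds (x := (n : ℝ)))
  rw [zero_add] at h3
  refine h3.congr' ?_
  filter_upwards [hI] with T hT
  have hp : 0 < 1 - T := by linarith [hT.2]
  have hl := log_pos_of hT.1 hT.2
  rw [Real.log_mul (zpow_pos hp n).ne' (Real.exp_pos _).ne', Real.log_zpow, Real.log_exp]
  have h5 : Real.log (1 / (1 - T)) = - Real.log (1 - T) := by
    rw [one_div, Real.log_inv]
  rw [h5] at hl ⊢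
  have hne : Real.log (1 - T) ≠ 0 := by
    intro h0
    rw [h0] at hl
    simp at hl
  field_simp
  ring

lemma summable_of_bound {f : ℕ → ℂ} {B : ℝ} (hB : ∀ n, ‖f n‖ ≤ B) {T : ℝ} (h0 : 0 < T)
    (h1 : T < 1) : Summable fun n : ℕ => (f n).re * T ^ (n + 1) / (n + 1) := by
  have h2 : Summable fun n : ℕ => B * T ^ n :=
    (summable_geometric_of_lt_one h0.le h1).mul_left B
  refine Summable.of_norm_bounded h2 fun n => ?_
  have hn : (0 : ℝ) < n + 1 := by positivity
  have hB0 : 0 ≤ B := (norm_nonneg _).trans (hB n)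
  rw [norm_div, norm_mul, Real.norm_of_nonneg hn.le, Real.norm_of_nonneg (pow_nonneg h0.le _),
    div_le_iff₀ hn]
  have h3 : ‖(f n).re‖ ≤ B := (Complex.abs_re_le_norm (f n)).trans (hB n)
  calc ‖(f n).re‖ * T ^ (n + 1) ≤ B * T ^ n := by
        rw [pow_succ]
        have h4 : 0 ≤ T ^ n := pow_nonneg h0.le _
        have h5 : T ^ n * T ≤ T ^ n := by nlinarith
        exact mul_le_mul h3 h5 (mul_nonneg h4 h0.le) hB0
    _ ≤ B * T ^ n * (n + 1) := by
        have h4 : 0 ≤ B * T ^ n := mul_nonneg hB0 (pow_nonneg h0.le _)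
        nlinarith [(Nat.cast_nonneg n : (0 : ℝ) ≤ n)]

/-- The comparison of the orders of the poles. -/
theorem pole_le {t f n g : ℕ → ℂ} {C B : ℝ}
    (ht : ∀ v, t v = f v + n v) (hf : ∀ v, ‖f v‖ ≤ C * (g v).re) (hBf : ∀ v, ‖f v‖ ≤ B)
    (hBn : ∀ v, ‖n v‖ ≤ B) (hBg : ∀ v, ‖g v‖ ≤ B) {N N' : ℤ}
    (hN : HasPole (fun T => Real.exp (lz t T)) N) (hNn : HasPole (fun T => Real.exp (lz n T)) 0)
    (hNg : HasPole (fun T => Real.exp (lz g T)) N') : (N : ℝ) ≤ C * N' := by
  have e1 := pole_log hN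
  have e2 := pole_log hNn
  have e3 := pole_log hNg
  have hI : ∀ᶠ T : ℝ in 𝓝[<] 1, 0 < T ∧ T < 1 := Ioo_mem_nhdsLT (by norm_num)
  have e5 := e2.add (e3.const_mul C)
  have e6 : ((0 : ℤ) : ℝ) + C * N' = C * N' := by push_cast; ring
  rw [e6] at e5
  refine le_of_tendsto_of_tendsto e1 e5 ?_
  filter_upwards [hI] with T hT
  have hl := log_pos_of hT.1 hT.2
  have sf := summable_of_bound hBf hT.1 hT.2
  have sn := summable_of_bound hBn hT.1 hT.2
  have sg := summable_of_bound hBg hT.1 hT.2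
  have b1 : lz t T = lz f T + lz n T := by
    unfold lz
    rw [← sf.tsum_add sn]
    refine tsum_congr fun v => ?_
    rw [ht v, Complex.add_re]
    ring
  have b2 : lz f T ≤ C * lz g T := by
    unfold lz
    rw [← tsum_mul_left]
    refine sf.tsum_le_tsum (fun v => ?_) (sg.mul_left C)
    rw [mul_div_assoc, mul_div_assoc, ← mul_assoc]
    refine mul_le_mul_of_nonneg_right ((Complex.re_le_norm _).trans (hf v)) ?_
    exact div_nonneg (pow_nonneg hT.1.le _) (by positivity)
  calc lz t T / Real.log (1 / (1 - T)) ≤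
      (lz n T + C * lz g T) / Real.log (1 / (1 - T)) :=
        div_le_div_of_nonneg_right (by linarith) hl.le
    _ = _ := by ring

section

variable {F : Type} [Field F] [Fintype F] {m : ℕ} [NeZero m] (X : DiagonalProduct F m)

lemma norm_frob_le {n : ℕ} (R : Extension F n) {i : ℕ} {b : Element X}
    (hb : IsBasis i b) : ‖frob R b‖ ≤ 1 := by
  unfold frob
  rw [norm_prod]
  refine prod_le_one (fun j _ => norm_nonneg _) fun j _ => ?_
  rcases hbj : b j with l | q
  · simp
  · simp only [Sum.elim_inr]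
    rw [norm_prod]
    refine prod_le_one (fun l _ => norm_nonneg _) fun l _ => ?_
    have h1 := (hb.1 j q hbj).1 l
    have hc : R.φ (X.c j l) ≠ 0 := by
      rw [Ne, map_eq_zero]
      exact X.ne_zero j l
    have hc' : R.φ (- X.c j l) ≠ 0 := by
      rw [Ne, map_eq_zero, neg_eq_zero]
      exact X.ne_zero j l
    rw [norm_mul]
    exact mul_le_one₀ (norm_gauss_le R.toCharField hc h1.1) (norm_nonneg _)
      (norm_gauss_le R.toCharField hc' h1.2.2.1)

lemma norm_trace_le (R : ∀ n, Extension F (n + 1)) (i : ℕ) (P : Element X → Prop)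
    (n : ℕ) : ‖trace X R i P n‖ ≤ Fintype.card (Element X) := by
  classical
  unfold trace
  refine (norm_sum_le _ _).trans ?_
  refine (sum_le_sum (g := fun _ => (1 : ℝ)) fun b hb => norm_frob_le X (R n)
    (mem_filter.mp hb).2.1).trans ?_
  rw [sum_const, nsmul_eq_mul, mul_one]
  exact_mod_cast card_le_univ _

lemma trace_add (R : ∀ n, Extension F (n + 1)) (i : ℕ) (P : Element X → Prop) (n : ℕ) :
    trace X R i (fun _ => True) n = trace X R i P n + trace X R i (fun b => ¬ P b) n := by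
  classical
  unfold trace
  have h := sum_filter_add_sum_filter_not (univ.filter fun b : Element X => IsBasis i b)
    (fun b => P b) (fun b => frob (R n) b)
  rw [filter_filter, filter_filter] at h
  refine Eq.trans (sum_congr ?_ fun _ _ => rfl) (h.symm.trans ?_)
  · ext b
    simp
  · congr 1
    refine sum_congr ?_ fun _ _ => rfl
    ext b
    simp

end

end Pool.Agent.H547_r
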