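import Pool.Agent.H547_q.Eigen
import Pool.Agent.H547_pp.Link

/-!
# The cohomology of products of diagonal hypersurfaces over finite fields: definitions
-/

set_option autoImplicit false

namespace Pool.Agent.H547_r

open Finset Filter Topology Pool.Agent.H916T Pool.Agent.H547_q

/-- A product of `r` diagonal hypersurfaces over the field `F`: the factor with the number `j` is the
hypersurface `∑_l c_l (x_l ^ d - y_l ^ d) = 0` of degree `d = d j`, a divisor of `m`, and of even
dimension `2 h`, where `l = 0, ..., h = h j` and the coefficients `c_l = c j l` are not zero. -/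
structure DiagonalProduct (F : Type) [Field F] (m : ℕ) where
  r : ℕ
  d : Fin r → ℕ
  h : Fin r → ℕ
  c : ∀ j, Fin (h j + 1) → F
  dvd : ∀ j, d j ∣ m
  ne_zero : ∀ j l, c j l ≠ 0

/-- The extension of degree `n` of the finite field `F`, with a generator of the group of its
multiplicative characters and a nontrivial additive character. -/
structure Extension (F : Type) [Field F] [Fintype F] (n : ℕ) extends CharField where
  /-- the inclusion -/
  φ : F →+* κ
  card : Fintype.card κ = Fintype.card F ^ n

section

variable {F : Type} [Field F] {m : ℕ}

/-- An index of the eigenbasis of the cohomology of `X`: for each factor the power of the hyperplane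
class, or a character, that is a tuple of residues modulo `m`, one for each variable. -/
abbrev Element (X : DiagonalProduct F m) : Type :=
  ∀ j : Fin X.r, Fin (2 * X.h j + 1) ⊕
    ((Fin (X.h j + 1) → ZMod m) × (Fin (X.h j + 1) → ZMod m))

variable {X : DiagonalProduct F m}

/-- All the residues. -/
def residues (b : Element X) : Multiset (ZMod m) :=
  ∑ j, Sum.elim (fun _ => 0) (fun q => univ.val.map q.1 + univ.val.map q.2) (b j)

/-- The codimension: half of the degree of the cohomology class. -/
def codim (b : Element X) : ℕ :=
  ∑ j, Sum.elim (fun l : Fin (2 * X.h j + 1) => (l : ℕ)) (fun _ => X.h j) (b j)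

/-- The basis of the cohomology group of degree `2 i`: the residues of each factor are not zero, they
are killed by the degree, and their sum is zero. -/
def IsBasis (i : ℕ) (b : Element X) : Prop :=
  (∀ j q, b j = Sum.inr q → (∀ l, q.1 l ≠ 0 ∧ (X.d j : ZMod m) * q.1 l = 0 ∧
    q.2 l ≠ 0 ∧ (X.d j : ZMod m) * q.2 l = 0) ∧ ∑ l, q.1 l + ∑ l, q.2 l = 0) ∧ codim b = i

/-- The slopes: by Stickelberger these are, up to a positive factor, the valuations at the primes over
`p` of the eigenvalue of the Frobenius, divided by the power of `q` which makes the weight zero. (For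
nonzero residues `a`: twice the sum of the representatives in `(0, m)` of `p ^ j t a`, `0 ≤ j < f`,
minus `f m`, where `f` is the order of `p` modulo `m`.) -/
noncomputable def slope (p : ℕ) (b : Element X) (t : (ZMod m)ˣ) : ℤ :=
  ((residues b).map fun a => 2 * ((∑ j ∈ range (orderOf (p : ZMod m)),
    ((p : ZMod m) ^ j * ((t : ZMod m) * a)).val : ℕ) : ℤ) - orderOf (p : ZMod m) * m).sum

/-- Linked residues: two nonzero residues `a`, `b` modulo `m` such that the (additive) orders of `a`
and `b` have the same prime divisors, or both orders are even, or, for every unit `t` modulo `m`,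
the representatives in `{1, ..., m - 1}` of the residues `p ^ j * t * a`, `0 ≤ j < f`, `f` being the
order of `p` modulo `m`, have the same sum as those of the residues `p ^ j * t * b`. -/
def Linked (p m : ℕ) (a b : ZMod m) : Prop :=
  a ≠ 0 ∧ b ≠ 0 ∧
    ((addOrderOf a).primeFactors = (addOrderOf b).primeFactors ∨
      (Even (addOrderOf a) ∧ Even (addOrderOf b)) ∨
      ∀ t : (ZMod m)ˣ,
        ∑ j ∈ Finset.range (orderOf (p : ZMod m)), ((p : ZMod m) ^ j * ((t : ZMod m) * a)).val =
          ∑ j ∈ Finset.range (orderOf (p : ZMod m)), ((p : ZMod m) ^ j * ((t : ZMod m) * b)).val)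

/-- The number of the classes of nonzero residues modulo `m` for the equivalence relation generated by
the links. -/
noncomputable def linkClasses (p m : ℕ) : ℕ := Set.ncard {C : Quot (Linked p m) | C ≠ Quot.mk _ 0}

open scoped Classical in
/-- Each class of linked residues contains an even number of the residues of `b`. -/
def IsEven (p : ℕ) (b : Element X) : Prop :=
  ∀ C : Quot (Linked p m), Even ((residues b).countP fun a => Quot.mk (Linked p m) a = C)

/-- The character `s` (a multiset of residues modulo `m`) is empty, or it becomes, after raising the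
degree to a multiple prime to `p`, a member of the closure of the characters of surfaces and of the
standard characters. -/
def IsKnown (p m : ℕ) (s : Multiset (ZMod m)) : Prop :=
  s = 0 ∨ ∃ N : ℕ, 0 < N ∧ p.Coprime N ∧
    Generated (N * m)
      (fun t => SurfaceTate p (N * m) t ∨ ∃ q : ℕ, q.Prime ∧ q ∣ N * m ∧ Standard q (N * m) t)
      (s.map fun a => ((N * a.val : ℕ) : ZMod (N * m)))

variable [Fintype F]

/-- The trace of the Frobenius of the extension, divided by the power of `q` which makes the weight
zero, on the line of the basis vector `b`: a product of normalized Gauss sums (Weil). It is zero if the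
Frobenius maps this line to another one, that is if the order of some residue does not divide
`q ^ n - 1`. -/
noncomputable def frob {n : ℕ} (R : Extension F n) (b : Element X) : ℂ :=
  ∏ j, Sum.elim (fun _ => 1) (fun q => ∏ l, (gauss R.toCharField (R.φ (X.c j l)) (q.1 l) *
    gauss R.toCharField (R.φ (- X.c j l)) (q.2 l))) (b j)

open scoped Classical in
/-- The trace of the power with exponent `n + 1` of the Frobenius on the part of the cohomology group
`H ^ (2 i)` of `X`, twisted by `i`, which is spanned by the basis vectors with the property `P`. -/
noncomputable def trace [NeZero m] (X : DiagonalProduct F m) (R : ∀ n, Extension F (n + 1)) (i : ℕ)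
    (P : Element X → Prop) (n : ℕ) : ℂ :=
  ∑ b ∈ univ.filter (fun b : Element X => IsBasis i b ∧ P b), frob (R n) b

/-- The absolute value of the part of the zeta function of `X` which belongs to the basis vectors of
`H ^ (2 i)` with the property `P`, at the point `z T q ^ (- i)`:
`|exp (∑_n Tr(F ^ n) (z T) ^ n / n)|`. -/
noncomputable def zeta [NeZero m] (X : DiagonalProduct F m) (R : ∀ n, Extension F (n + 1)) (i : ℕ)
    (P : Element X → Prop) (z : ℂ) (T : ℝ) : ℝ :=
  Real.exp (∑' n : ℕ, (trace X R i P n * z ^ (n + 1)).re * T ^ (n + 1) / (n + 1))

end

/-- The function `f` on `(0, 1)` has a pole of order `N` at `1` (a zero of order `- N`):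
`(1 - T) ^ N f(T)` has a finite nonzero limit for `T < 1` tending to `1`. -/
def HasPole (f : ℝ → ℝ) (N : ℤ) : Prop :=
  ∃ c : ℝ, c ≠ 0 ∧ Tendsto (fun T : ℝ => (1 - T) ^ N * f T) (𝓝[<] 1) (𝓝 c)

end Pool.Agent.H547_r
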