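import Pool.Agent.H547_r.Defs
import Pool.Agent.H547_q.Ineq

/-!
# Splitting the basis vectors into halves, and the trace inequality
-/

set_option autoImplicit false

namespace Pool.Agent.H547_r

open Finset Filter Topology Pool.Agent.H916T Pool.Agent.H547_q

section

variable {F : Type} [Field F] {m : ℕ} {X : DiagonalProduct F m}

/-- half of a basis element -/
abbrev HalfEl (X : DiagonalProduct F m) : Type :=
  ∀ j : Fin X.r, Fin (2 * X.h j + 1) ⊕ (Fin (X.h j + 1) → ZMod m)

/-- the first half -/
def fstH (b : Element X) : HalfEl X := fun j => (b j).map id Prod.fst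

/-- the negative of the second half -/
def sndH (b : Element X) : HalfEl X := fun j => (b j).map id fun q => - q.2

/-- gluing -/
def glueH (x z : HalfEl X) : Element X :=
  fun j => (x j).map id fun a => (a, - Sum.elim (fun _ => 0) id (z j))

/-- the shape -/
def shapeH (x : HalfEl X) : ∀ j : Fin X.r, Option (Fin (2 * X.h j + 1)) :=
  fun j => Sum.elim some (fun _ => none) (x j)

/-- sums of the residues -/
def smH (x : HalfEl X) : Fin X.r → ZMod m :=
  fun j => Sum.elim (fun _ => 0) (fun a => ∑ l, a l) (x j)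

/-- codimension -/
def cdH (x : HalfEl X) : ℕ :=
  ∑ j, Sum.elim (fun l : Fin (2 * X.h j + 1) => (l : ℕ)) (fun _ => X.h j) (x j)

/-- sum of a function over the residues -/
def wtH {M : Type*} [AddCommMonoid M] (G : ZMod m → M) (x : HalfEl X) : M :=
  ∑ j, Sum.elim (fun _ => 0) (fun a => ∑ l, G (a l)) (x j)

/-- the residues are not zero and killed by the degree -/
def okH (x : HalfEl X) : Prop :=
  ∀ j a, x j = Sum.inr a → ∀ l, a l ≠ 0 ∧ (X.d j : ZMod m) * a l = 0

/-- the product of the Gauss sums -/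
noncomputable def thetaH [Fintype F] {n : ℕ} (R : Extension F n) (x : HalfEl X) : ℂ :=
  ∏ j, Sum.elim (fun _ => 1) (fun a => ∏ l, gauss R.toCharField (R.φ (X.c j l)) (a l)) (x j)

lemma glue_fst_sndH (b : Element X) : glueH (fstH b) (sndH b) = b := by
  funext j
  unfold glueH fstH sndH
  rcases b j with l | q
  · rfl
  · simp

lemma fst_glueH (x z : HalfEl X) : fstH (glueH x z) = x := by
  funext j
  unfold glueH fstH
  rcases hx : x j with l | q
  · simp [hx]
  · simp [hx]

lemma snd_glueH {x z : HalfEl X} (h : shapeH x = shapeH z) : sndH (glueH x z) = z := by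
  funext j
  have hj := congrFun h j
  unfold shapeH at hj
  unfold glueH sndH
  rcases hx : x j with l | a <;> rcases hz : z j with l' | a'
  · rw [hx, hz] at hj
    simp only [Sum.elim_inl, Option.some.injEq] at hj
    simp [hx, hj]
  · rw [hx, hz] at hj
    simp at hj
  · rw [hx, hz] at hj
    simp at hj
  · simp [hx, hz]

lemma shape_fst_sndH (b : Element X) : shapeH (fstH b) = shapeH (sndH b) := by
  funext j
  unfold shapeH fstH sndH
  rcases b j with l | q <;> rfl

lemma isBasis_iff (i : ℕ) (b : Element X) :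
    IsBasis i b ↔ (okH (fstH b) ∧ cdH (fstH b) = i) ∧ (okH (sndH b) ∧ cdH (sndH b) = i) ∧
      smH (fstH b) = smH (sndH b) := by
  have hc : ∀ b : Element X, cdH (fstH b) = codim b := by
    intro b
    unfold cdH codim fstH
    refine sum_congr rfl fun j _ => ?_
    rcases b j with l | q <;> rfl
  have hc2 : ∀ b : Element X, cdH (sndH b) = codim b := by
    intro b
    unfold cdH codim sndH
    refine sum_congr rfl fun j _ => ?_
    rcases b j with l | q <;> rfl
  rw [hc, hc2]
  constructor
  · rintro ⟨h1, h2⟩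
    refine ⟨⟨?_, h2⟩, ⟨?_, h2⟩, ?_⟩
    · intro j a ha l
      unfold fstH at ha
      rcases hb : b j with l' | q
      · rw [hb] at ha; simp at ha
      · rw [hb] at ha
        simp only [Sum.map_inr, Sum.inr.injEq] at ha
        have h3 := (h1 j q hb).1 l
        rw [← ha]
        exact ⟨h3.1, h3.2.1⟩
    · intro j a ha l
      unfold sndH at ha
      rcases hb : b j with l' | q
      · rw [hb] at ha; simp at ha
      · rw [hb] at ha
        simp only [Sum.map_inr, Sum.inr.injEq] at ha
        have h3 := (h1 j q hb).1 l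
        rw [← ha]
        refine ⟨?_, ?_⟩
        · rw [Pi.neg_apply]
          exact neg_ne_zero.mpr h3.2.2.1
        · rw [Pi.neg_apply, mul_neg, h3.2.2.2, neg_zero]
    · funext j
      unfold smH fstH sndH
      rcases hb : b j with l' | q
      · rfl
      · simp only [Sum.map_inr, Sum.elim_inr, Pi.neg_apply, sum_neg_distrib]
        exact eq_neg_of_add_eq_zero_left (h1 j q hb).2
  · rintro ⟨⟨h1, h2⟩, ⟨h3, _⟩, h4⟩
    refine ⟨?_, h2⟩
    intro j q hb
    have e1 : fstH b j = Sum.inr q.1 := by unfold fstH; rw [hb]; rfl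
    have e2 : sndH b j = Sum.inr (-q.2) := by unfold sndH; rw [hb]; rfl
    constructor
    · intro l
      have h5 := h1 j _ e1 l
      have h6 := h3 j _ e2 l
      rw [Pi.neg_apply, mul_neg, neg_eq_zero] at h6
      exact ⟨h5.1, h5.2, neg_ne_zero.mp h6.1, h6.2⟩
    · have h5 := congrFun h4 j
      unfold smH at h5
      rw [e1, e2] at h5
      simp only [Sum.elim_inr, Pi.neg_apply, sum_neg_distrib] at h5
      rw [h5, neg_add_cancel]

lemma map_residues {M : Type*} [AddCommGroup M] (G : ZMod m → M) (hG : ∀ a, G (-a) = - G a)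
    (b : Element X) : ((residues b).map G).sum = wtH G (fstH b) - wtH G (sndH b) := by
  have h1 : ∀ s : Finset (Fin X.r),
      ((∑ j ∈ s, Sum.elim (fun _ => (0 : Multiset (ZMod m)))
        (fun q : (Fin (X.h j + 1) → ZMod m) × (Fin (X.h j + 1) → ZMod m) =>
          univ.val.map q.1 + univ.val.map q.2) (b j)).map G).sum =
        ∑ j ∈ s, (Sum.elim (fun _ => (0 : M)) (fun a => ∑ l, G (a l)) (fstH b j) -
          Sum.elim (fun _ => (0 : M)) (fun a => ∑ l, G (a l)) (sndH b j)) := by
    intro s
    induction s using Finset.induction_on with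
    | empty => simp
    | insert j s hj ih =>
      rw [sum_insert hj, sum_insert hj, Multiset.map_add, Multiset.sum_add, ih]
      congr 1
      unfold fstH sndH
      rcases b j with l | q
      · simp
      · simp only [Sum.elim_inr, Sum.map_inr, Multiset.map_add, Multiset.sum_add, Multiset.map_map,
          Pi.neg_apply, hG, sum_neg_distrib, sub_neg_eq_add]
        rfl
  unfold residues wtH
  rw [← sum_sub_distrib]
  exact h1 univ

/-- The conjugate of a normalized Gauss sum. -/
lemma conj_gauss' [NeZero m] (K : CharField) {c : K.κ} {a : ZMod m} (ha : a ≠ 0) :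
    gauss K (-c) (-a) = (starRingEnd ℂ) (gauss K c a) := by
  unfold gauss
  rw [addOrderOf_neg]
  split_ifs with h
  · rw [chi_neg K ha h]
    set χ' := K.χ ^ ((Fintype.card K.κ - 1) * a.val / m) with hχ'
    have h6 : χ'⁻¹ (-1) * χ'⁻¹ (-1) = 1 := by
      rw [← map_mul, neg_mul_neg, one_mul]
      exact MulChar.map_one _
    have h2 : (starRingEnd ℂ) (gaussSum χ' K.ψ) = χ'⁻¹ (-1) * gaussSum χ'⁻¹ K.ψ := by
      have h3 := star_gaussSum_eq χ' K.ψ
      rw [starRingEnd_apply, h3, ← mul_gaussSum_inv_eq_gaussSum χ'⁻¹ K.ψ, ← mul_assoc, h6, one_mul]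
    have h3 : (starRingEnd ℂ) (χ' c) = χ'⁻¹ c := MulChar.star_apply' χ' c
    have h4 : χ'⁻¹ (-c) = χ'⁻¹ (-1) * χ'⁻¹ c := by rw [← map_mul, neg_one_mul]
    have h5 : (χ'⁻¹ (-1))⁻¹ = χ'⁻¹ (-1) := inv_eq_of_mul_eq_one_left h6
    have h7 : (starRingEnd ℂ) (-(gaussSum χ' K.ψ * (χ' c)⁻¹ /
        (Real.sqrt (Fintype.card K.κ) : ℂ))) = -(χ'⁻¹ (-1) * gaussSum χ'⁻¹ K.ψ * (χ'⁻¹ c)⁻¹ /
        (Real.sqrt (Fintype.card K.κ) : ℂ)) := by
      rw [← h2, ← h3]
      simp only [map_neg, map_div₀, map_mul, map_inv₀, Complex.conj_ofReal]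
    rw [h7, h4, mul_inv, h5]
    ring
  · rw [map_zero]

lemma frob_eq [NeZero m] [Fintype F] {n : ℕ} (R : Extension F n) {b : Element X}
    (hb : okH (sndH b)) :
    frob R b = thetaH R (fstH b) * (starRingEnd ℂ) (thetaH R (sndH b)) := by
  unfold frob thetaH
  rw [map_prod, ← prod_mul_distrib]
  refine prod_congr rfl fun j _ => ?_
  rcases hbj : b j with l | q
  · unfold fstH sndH
    rw [hbj]
    simp
  · have e2 : sndH b j = Sum.inr (-q.2) := by unfold sndH; rw [hbj]; rfl
    have h3 := hb j _ e2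
    rw [e2]
    unfold fstH
    rw [hbj]
    simp only [Sum.elim_inr, Sum.map_inr, map_prod]
    rw [← prod_mul_distrib]
    refine prod_congr rfl fun l _ => ?_
    congr 1
    have h4 := (h3 l).1
    rw [← conj_gauss' R.toCharField h4, Pi.neg_apply, neg_neg, map_neg]

end

section

variable {F : Type} [Field F] [Fintype F] {m : ℕ} [NeZero m] (X : DiagonalProduct F m)

open scoped Classical in
/-- **The trace inequality.** -/
theorem trace_class {n : ℕ} (R : Extension F n) (i : ℕ) {Γ : Type} [AddCommGroup Γ]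
    (γ : ZMod m → Γ) (hγ : ∀ a, γ (-a) = - γ a) (e : Γ) :
    ‖∑ b ∈ univ.filter (fun b : Element X => IsBasis i b ∧ ((residues b).map γ).sum = e),
        frob R b‖ ≤
      (∑ b ∈ univ.filter (fun b : Element X => IsBasis i b ∧ ((residues b).map γ).sum = 0),
        frob R b).re := by
  let Y : Finset (HalfEl X) := univ.filter fun x => okH x ∧ cdH x = i
  let f : HalfEl X → (∀ j : Fin X.r, Option (Fin (2 * X.h j + 1))) × (Fin X.r → ZMod m) :=
    fun x => (shapeH x, smH x)
  let g : HalfEl X → Γ := wtH γ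
  have key : ∀ e : Γ, ∑ b ∈ univ.filter (fun b : Element X =>
        IsBasis i b ∧ ((residues b).map γ).sum = e), frob R b =
      ∑ q ∈ (Y ×ˢ Y).filter (fun q => f q.1 = f q.2 ∧ g q.2 = g q.1 - e),
        thetaH R q.1 * (starRingEnd ℂ) (thetaH R q.2) := by
    intro e
    refine sum_bij' (fun b _ => (fstH b, sndH b)) (fun q _ => glueH q.1 q.2) ?_ ?_ ?_ ?_ ?_
    · intro b hb
      rw [mem_filter] at hb
      obtain ⟨_, hb1, hb3⟩ := hb
      rw [isBasis_iff] at hb1
      rw [map_residues γ hγ] at hb3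
      rw [mem_filter, mem_product, mem_filter, mem_filter]
      refine ⟨⟨⟨mem_univ _, hb1.1⟩, mem_univ _, hb1.2.1⟩, ?_, ?_⟩
      · exact Prod.ext (shape_fst_sndH b) hb1.2.2
      · rw [← hb3]
        change wtH γ (sndH b) = wtH γ (fstH b) - (wtH γ (fstH b) - wtH γ (sndH b))
        abel
    · intro q hq
      rw [mem_filter, mem_product, mem_filter, mem_filter] at hq
      obtain ⟨⟨⟨_, hq1⟩, _, hq2⟩, hq3, hq4⟩ := hq
      have hs : shapeH q.1 = shapeH q.2 := congrArg Prod.fst hq3
      have h2 : smH q.1 = smH q.2 := congrArg Prod.snd hq3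
      rw [mem_filter, isBasis_iff, map_residues γ hγ, fst_glueH, snd_glueH hs]
      refine ⟨mem_univ _, ⟨hq1, hq2, h2⟩, ?_⟩
      change wtH γ q.2 = wtH γ q.1 - e at hq4
      rw [hq4]
      abel
    · intro b _
      exact glue_fst_sndH b
    · intro q hq
      rw [mem_filter] at hq
      have hs : shapeH q.1 = shapeH q.2 := congrArg Prod.fst hq.2.1
      change (fstH (glueH q.1 q.2), sndH (glueH q.1 q.2)) = q
      rw [fst_glueH, snd_glueH hs]
    · intro b hb
      rw [mem_filter] at hb
      exact frob_eq R ((isBasis_iff i b).mp hb.2.1).2.1.1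
  rw [key e, key 0]
  have h := pair_ineq Y f g (fun x => thetaH R x) e
  calc _ = _ := by congr!
    _ ≤ _ := h
    _ = _ := by
      congr 1
      refine sum_congr ?_ fun _ _ => rfl
      ext q
      simp only [mem_filter, sub_zero]

end

end Pool.Agent.H547_r
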