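import Pool.Agent.H547_r.Split

/-!
# The trace of Frobenius on the parts with given slopes and on the known algebraic part
-/

set_option autoImplicit false

namespace Pool.Agent.H547_r

open Finset Filter Topology Pool.Agent.H916T Pool.Agent.H547_q Pool.Agent.H547_pp

section

variable {F : Type} [Field F] {m : ℕ} {X : DiagonalProduct F m}

lemma mem_residues {b : Element X} {a : ZMod m} (ha : a ∈ residues b) :
    ∃ j q, b j = Sum.inr q ∧ ∃ l, q.1 l = a ∨ q.2 l = a := by
  unfold residues at ha
  rw [Multiset.mem_sum] at ha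
  obtain ⟨j, _, hj⟩ := ha
  rcases hb : b j with l | q
  · rw [hb] at hj; simp at hj
  · rw [hb] at hj
    simp only [Sum.elim_inr, Multiset.mem_add, Multiset.mem_map] at hj
    refine ⟨j, q, hb, ?_⟩
    rcases hj with ⟨l, _, hl⟩ | ⟨l, _, hl⟩
    · exact ⟨l, Or.inl hl⟩
    · exact ⟨l, Or.inr hl⟩

lemma basis_props {i : ℕ} {b : Element X} (hb : IsBasis i b) :
    (0 : ZMod m) ∉ residues b ∧ Even (Multiset.card (residues b)) ∧ (residues b).sum = 0 := by
  refine ⟨?_, ?_, ?_⟩
  · intro h0
    obtain ⟨j, q, hj, l, hl⟩ := mem_residues h0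
    have h1 := (hb.1 j q hj).1 l
    rcases hl with hl | hl
    · exact h1.1 hl
    · exact h1.2.2.1 hl
  · unfold residues
    have h1 : ∀ s : Finset (Fin X.r), Even (Multiset.card (∑ j ∈ s,
        Sum.elim (fun _ => (0 : Multiset (ZMod m)))
        (fun q : (Fin (X.h j + 1) → ZMod m) × (Fin (X.h j + 1) → ZMod m) =>
          univ.val.map q.1 + univ.val.map q.2) (b j))) := by
      intro s
      induction s using Finset.induction_on with
      | empty => simp
      | insert j s hj ih =>
        rw [sum_insert hj, Multiset.card_add]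
        refine Even.add ?_ ih
        rcases b j with l | q
        · simp
        · simp
    exact h1 univ
  · unfold residues
    have h1 : ∀ s : Finset (Fin X.r), (∑ j ∈ s,
        Sum.elim (fun _ => (0 : Multiset (ZMod m)))
        (fun q : (Fin (X.h j + 1) → ZMod m) × (Fin (X.h j + 1) → ZMod m) =>
          univ.val.map q.1 + univ.val.map q.2) (b j)).sum = 0 := by
      intro s
      induction s using Finset.induction_on with
      | empty => simp
      | insert j s hj ih =>
        rw [sum_insert hj, Multiset.sum_add, ih, add_zero]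
        rcases hbj : b j with l | q
        · simp
        · simp only [Sum.elim_inr, Multiset.sum_add]
          exact (hb.1 j q hbj).2
    exact h1 univ

lemma W_val [NeZero m] {p : ℕ} (hpm : p.Coprime m) {a : ZMod m} (ha : a ≠ 0) (t : (ZMod m)ˣ) :
    W p ((t : ZMod m) * a) =
      2 * ((∑ j ∈ Finset.range (orderOf (p : ZMod m)),
        ((p : ZMod m) ^ j * ((t : ZMod m) * a)).val : ℕ) : ℤ) - orderOf (p : ZMod m) * m := by
  unfold W
  have hu := isUnit_p hpm
  have h1 : ∀ j ∈ Finset.range (orderOf (p : ZMod m)),
      H916R2.saw ((p : ZMod m) ^ j * ((t : ZMod m) * a)) =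
        2 * ((((p : ZMod m) ^ j * ((t : ZMod m) * a)).val : ℕ) : ℤ) - m := by
    intro j _
    apply H916R2.saw_of_ne_zero
    intro h
    have h2 := ((hu.pow j).mul_right_eq_zero).mp h
    exact ha ((t.isUnit.mul_right_eq_zero).mp h2)
  rw [Finset.sum_congr rfl h1, Finset.sum_sub_distrib, ← Finset.mul_sum]
  push_cast
  simp

lemma linked_iff [NeZero m] {p : ℕ} (hpm : p.Coprime m) (a b : ZMod m) :
    H916Z.Link p a b ↔ Linked p m a b := by
  unfold H916Z.Link Linked
  constructor
  · rintro ⟨ha, hb, h | ⟨h1, h2⟩ | h⟩
    · exact ⟨ha, hb, Or.inl h⟩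
    · exact ⟨ha, hb, Or.inr (Or.inl ⟨even_iff_two_dvd.mpr h1, even_iff_two_dvd.mpr h2⟩)⟩
    · refine ⟨ha, hb, Or.inr (Or.inr fun t => ?_)⟩
      have h1 := h t
      rw [W_val hpm ha, W_val hpm hb] at h1
      have h2 : ((∑ j ∈ Finset.range (orderOf (p : ZMod m)),
          ((p : ZMod m) ^ j * ((t : ZMod m) * a)).val : ℕ) : ℤ) =
        ((∑ j ∈ Finset.range (orderOf (p : ZMod m)),
          ((p : ZMod m) ^ j * ((t : ZMod m) * b)).val : ℕ) : ℤ) := by linarith
      exact_mod_cast h2
  · rintro ⟨ha, hb, h | ⟨h1, h2⟩ | h⟩
    · exact ⟨ha, hb, Or.inl h⟩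
    · exact ⟨ha, hb, Or.inr (Or.inl ⟨even_iff_two_dvd.mp h1, even_iff_two_dvd.mp h2⟩)⟩
    · refine ⟨ha, hb, Or.inr (Or.inr fun t => ?_)⟩
      rw [W_val hpm ha, W_val hpm hb, h t]

lemma class_ne_zero {p : ℕ} {a : ZMod m} (ha : a ≠ 0) :
    Quot.mk (Linked p m) a ≠ Quot.mk _ 0 := by
  intro h0
  rw [Quot.eq] at h0
  have h1 : ∀ x y : ZMod m, Relation.EqvGen (Linked p m) x y → (x = 0 ↔ y = 0) := by
    intro x y hxy
    induction hxy with
    | rel x y hxy => exact iff_of_false hxy.1 hxy.2.1
    | refl x => exact Iff.rfl
    | symm x y _ ih => exact ih.symm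
    | trans x y z _ _ ih1 ih2 => exact ih1.trans ih2
  exact ha ((h1 a 0 h0).2 rfl)

lemma class_neg [NeZero m] {p : ℕ} (hpm : p.Coprime m) (a : ZMod m) :
    Quot.mk (Linked p m) (-a) = Quot.mk (Linked p m) a := by
  by_cases ha : a = 0
  · rw [ha, neg_zero]
  · exact Quot.sound ((linked_iff hpm _ _).1 (link_neg ha))

/-- The slopes in terms of the function `W`. -/
lemma slope_eq [NeZero m] {p : ℕ} (hpm : p.Coprime m) {i : ℕ} {b : Element X} (hb : IsBasis i b)
    (t : (ZMod m)ˣ) : slope p b t = ((residues b).map fun a => W p ((t : ZMod m) * a)).sum := by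
  unfold slope
  congr 1
  refine Multiset.map_congr rfl fun a ha => ?_
  rw [W_val hpm]
  rintro rfl
  exact (basis_props hb).1 ha

/-- The even part is known. -/
theorem known_of_even {p : ℕ} (hp : p.Prime) (hm : 0 < m) (hpm : p.Coprime m) {i : ℕ}
    {b : Element X} (hb : IsBasis i b) (h0 : slope p b = 0) (he : IsEven p b) :
    IsKnown p m (residues b) := by
  classical
  have hz : NeZero m := ⟨hm.ne'⟩
  by_cases hne : residues b = 0
  · exact Or.inl hne
  · right
    have hT : IsTate p m (residues b) := by
      refine isTate_of_W hpm (basis_props hb).1 (basis_props hb).2.1 (basis_props hb).2.2 fun t => ?_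
      rw [← slope_eq hpm hb t, h0]
      rfl
    refine generated_of_parity hp hm hpm hT hne (Linked p m) (linked_iff hpm) fun C => ?_
    rw [← countP_cast, ZMod.natCast_eq_zero_iff, ← even_iff_two_dvd]
    exact he C

/-- The weight and the parity of a residue. -/
noncomputable def wp (p m : ℕ) (a : ZMod m) :
    ((ZMod m)ˣ → ℤ) × (Quot (Linked p m) → ZMod 2) :=
  open scoped Classical in
    (fun t => W p ((t : ZMod m) * a), fun C => if Quot.mk (Linked p m) a = C then 1 else 0)

lemma wp_neg [NeZero m] {p : ℕ} (hpm : p.Coprime m) (a : ZMod m) : wp p m (-a) = - wp p m a := by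
  classical
  have hneg2 : ∀ y : ZMod 2, -y = y := by decide
  unfold wp
  refine Prod.ext ?_ ?_
  · funext t
    simp only [mul_neg, W_neg, Prod.neg_mk, Pi.neg_apply]
  · funext C
    simp only [Prod.neg_mk, Pi.neg_apply, class_neg hpm, hneg2]

lemma wp_sum [NeZero m] {p : ℕ} (s : Multiset (ZMod m)) :
    (s.map (wp p m)).sum = (fun t : (ZMod m)ˣ => (s.map fun a => W p ((t : ZMod m) * a)).sum,
      open scoped Classical in fun C : Quot (Linked p m) =>
        ((s.countP fun a => Quot.mk (Linked p m) a = C : ℕ) : ZMod 2)) := by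
  classical
  induction s using Multiset.induction_on with
  | empty => simp; rfl
  | cons a s ih =>
    rw [Multiset.map_cons, Multiset.sum_cons, ih]
    refine Prod.ext ?_ ?_
    · funext t
      simp [wp]
    · funext C
      simp only [wp, Prod.mk_add_mk, Pi.add_apply, Multiset.countP_cons, Nat.cast_add, Nat.cast_ite,
        Nat.cast_one, Nat.cast_zero]
      rw [add_comm]

end

section

variable {F : Type} [Field F] [Fintype F] {m : ℕ} [NeZero m] {X : DiagonalProduct F m}

/-- **The trace of the Frobenius on the part with given slopes is bounded by a constant times the trace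
on the known part.** -/
theorem trace_le {p : ℕ} (hpm : p.Coprime m) (R : ∀ n, Extension F (n + 1)) (i n : ℕ)
    (u : (ZMod m)ˣ → ℤ) :
    ‖trace X R i (fun b => slope p b = u) n‖ ≤ 2 ^ (linkClasses p m - 1) *
      (trace X R i (fun b => slope p b = 0 ∧ IsEven p b) n).re := by
  classical
  have hQ : Finite (Quot (Linked p m)) := Quot.finite _
  have hQF : Fintype (Quot (Linked p m)) := Fintype.ofFinite _
  let S : Finset (Quot (Linked p m)) := univ.filter fun C => C ≠ Quot.mk _ 0
  have hS : S.card = linkClasses p m := by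
    unfold linkClasses
    rw [← Set.ncard_coe_finset]
    congr 1
    ext C
    simp [S]
  let E : Finset (Quot (Linked p m) → ZMod 2) :=
    univ.filter fun e => (∀ C, C ∉ S → e C = 0) ∧ ∑ C, e C = 0
  let T : ((ZMod m)ˣ → ℤ) × (Quot (Linked p m) → ZMod 2) → Finset (Element X) := fun e =>
    univ.filter (fun b : Element X => IsBasis i b ∧ ((residues b).map (wp p m)).sum = e)
  have hTe : ∀ e, ‖∑ b ∈ T e, frob (R n) b‖ ≤ (∑ b ∈ T 0, frob (R n) b).re := by
    intro e
    have h := trace_class X (R n) i (wp p m) (wp_neg hpm) e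
    calc _ = _ := by congr!
      _ ≤ _ := h
      _ = _ := by congr!
  have hsl : ∀ (b : Element X) (v : (ZMod m)ˣ → ℤ), IsBasis i b → (slope p b = v ↔
      (fun t : (ZMod m)ˣ => ((residues b).map fun a => W p ((t : ZMod m) * a)).sum) = v) := by
    intro b v hb
    have h1 : slope p b =
        fun t : (ZMod m)ˣ => ((residues b).map fun a => W p ((t : ZMod m) * a)).sum := by
      funext t
      exact slope_eq hpm hb t
    rw [h1]
  have hA : trace X R i (fun b => slope p b = u) n = ∑ e ∈ E, ∑ b ∈ T (u, e), frob (R n) b := by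
    unfold trace
    rw [← sum_biUnion]
    · refine sum_congr ?_ fun _ _ => rfl
      ext b
      simp only [mem_filter, mem_univ, true_and, mem_biUnion, T]
      constructor
      · rintro ⟨h1, h2⟩
        refine ⟨fun C => ((residues b).countP fun a => Quot.mk (Linked p m) a = C : ℕ), ?_, h1, ?_⟩
        · simp only [E, mem_filter, mem_univ, true_and]
          constructor
          · intro C hC
            have h3 : ((residues b).countP fun a => Quot.mk (Linked p m) a = C) = 0 := by
              rw [Multiset.countP_eq_zero]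
              intro a ha hCa
              apply hC
              simp only [S, mem_filter, mem_univ, true_and]
              rw [← hCa]
              apply class_ne_zero
              rintro rfl
              exact (basis_props h1).1 ha
            rw [h3, Nat.cast_zero]
          · have h3 : ∀ s : Multiset (ZMod m), ∑ C : Quot (Linked p m),
                ((s.countP fun a => Quot.mk (Linked p m) a = C : ℕ) : ZMod 2) =
                  (Multiset.card s : ZMod 2) := by
              intro s
              induction s using Multiset.induction_on with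
              | empty => simp
              | cons a s ih =>
                simp only [Multiset.countP_cons, Nat.cast_add, sum_add_distrib, ih, Nat.cast_ite,
                  Nat.cast_one, Nat.cast_zero, sum_ite_eq, mem_univ, if_true, Multiset.card_cons]
            rw [h3]
            have h4 := (basis_props h1).2.1
            rw [ZMod.natCast_eq_zero_iff]
            exact even_iff_two_dvd.mp h4
        · rw [wp_sum, (hsl b u h1).mp h2]
      · rintro ⟨e, _, h1, h2⟩
        rw [wp_sum] at h2
        exact ⟨h1, (hsl b u h1).mpr (congrArg Prod.fst h2)⟩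
    · intro e _ e' _ hee
      rw [Function.onFun, disjoint_left]
      intro b hb hb'
      simp only [T, mem_filter] at hb hb'
      exact hee (congrArg Prod.snd (hb.2.2.symm.trans hb'.2.2))
  have hB : trace X R i (fun b => slope p b = 0 ∧ IsEven p b) n = ∑ b ∈ T 0, frob (R n) b := by
    unfold trace
    refine sum_congr ?_ fun _ _ => rfl
    ext b
    simp only [mem_filter, mem_univ, true_and, T]
    refine and_congr_right fun h1 => ?_
    rw [wp_sum, hsl b 0 h1, Prod.ext_iff]
    refine and_congr Iff.rfl ?_
    unfold IsEven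
    rw [funext_iff]
    refine forall_congr' fun C => ?_
    rw [even_iff_two_dvd, ← ZMod.natCast_eq_zero_iff]
    rfl
  rw [hA, hB]
  have h0 : 0 ≤ (∑ b ∈ T 0, frob (R n) b).re := (norm_nonneg _).trans (hTe 0)
  refine (norm_sum_le _ _).trans ((sum_le_sum fun e _ => hTe (u, e)).trans ?_)
  rw [sum_const, nsmul_eq_mul]
  refine mul_le_mul_of_nonneg_right ?_ h0
  rw [← hS]
  exact_mod_cast card_even_vectors S

end

end Pool.Agent.H547_r
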